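import Pool.Agent.V11251.DS.TransE

/-!
# The asymptotic formula for the number of the primes in almost all the translates of the set of the decimal palindromes

For the set of the decimal palindromes with `2 L + 1` digits and almost all the integers `a`. The second moments of the error for
the primes over random palindromes, with arbitrary weights (starting files `Pool.Agent.W93`, `Pool.Agent.TH872`,
`Pool.Agent.H373R2.T7`), give by duality the sieve model in almost all the translates (`Pool.Agent.V11251.DS.Trans`); the
model is evaluated in every translate with the level of distribution of the palindromes (starting files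
`Pool.Agent.H39R3.PB`) and the fundamental lemma (starting file `Pool.Agent.H20R2.EN.FLem`).
-/

set_option autoImplicit false

namespace Pool.Agent.Results.MP_540de1_nt.AlmostAllTranslates

open Finset

open Classical in
/-- The palindromes with exactly `2 L + 1` digits in base `b` (for `L ≥ 1`): the integers `v` with
`b ^ (2 L) ≤ v < b ^ (2 L + 1)` whose base-`b` digit sequence is equal to its own reverse. -/
noncomputable def pal (b L : ℕ) : Finset ℕ :=
  (range (b ^ (2 * L + 1))).filter (fun v => b ^ (2 * L) ≤ v ∧ (Nat.digits b v).reverse = Nat.digits b v)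

open Classical in
/-- The number of the palindromes `v` with exactly `2 L + 1` digits in base `b` for which `a + v` is a prime. -/
noncomputable def primes (b L a : ℕ) : ℕ := ((pal b L).filter (fun v => (a + v).Prime)).card

/-- `R(a)`: the number of the digits `l`, `1 ≤ l ≤ b - 1`, for which `a + l` is coprime to `b`. -/
def R (b a : ℕ) : ℕ := ((Icc 1 (b - 1)).filter (fun l => (a + l).Coprime b)).card

open Classical in
/-- Let `ε > 0`, `B` and `U` be fixed. Let `L` be large, `10 ^ (2 L) / B ≤ N ≤ B 10 ^ (2 L)` and `0 ≤ c ≤ B N`. Then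
for all the integers `a = c + n`, `1 ≤ n ≤ N`, with at most `N / log ^ U N` exceptions, the number of the decimal palindromes
`v` with exactly `2 L + 1` digits for which `a + v` is a prime is `R(a) (5 / 2) 10 ^ L / log (10 ^ (2 L))`, up to an error of at most
`ε 10 ^ L / L`. Here `R(a)` is the number of the possible last digits `l ∈ {1, ..., 9}` for which `a + l` is coprime to `10`;
it is `3` or `4`. (For `a = 0`, which is one translate and is not covered, this would be the conjectured asymptotic
formula `5 · 10 ^ L / (L log 10)` for the number of the palindromic primes with `2 L + 1` digits.) -/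
theorem result (ε : ℝ) (hε : 0 < ε) (B U : ℕ) : ∃ L₀ : ℕ, ∀ L : ℕ, L₀ ≤ L →
    ∀ N : ℕ, 10 ^ (2 * L) ≤ B * N → N ≤ B * 10 ^ (2 * L) → ∀ c : ℕ, c ≤ B * N →
    (((Icc 1 N).filter fun n : ℕ => ¬ |(primes 10 L (c + n) : ℝ) - R 10 (c + n) * ((5 / 2) * (10 : ℝ) ^ L / Real.log ((10 : ℝ) ^ (2 * L)))| ≤
      ε * ((10 : ℝ) ^ L / L)).card : ℝ) ≤ N / Real.log N ^ U := by
  obtain ⟨L₀, h⟩ := Pool.Agent.V11251.DS.final 10 (by norm_num) (by decide) ε hε B U
  refine ⟨L₀ + 1, fun L hL N hN1 hN2 c hc => ?_⟩
  refine h L (by omega) N hN1 hN2 c hc _ (fun n hn => ?_)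
  have e1 : pal 10 L = Pool.Agent.TH872.Mir.Pals 10 (2 * L + 1) :=
    Pool.Agent.V11251.DS.pals_digits 10 (2 * L + 1) (by norm_num) (by omega)
  unfold primes
  rw [e1]
  have e2 : Real.log ((10 : ℝ) ^ (2 * L)) = Real.log 10 * (2 * L) := by
    rw [Real.log_pow]
    push_cast
    ring
  have e3 : (R 10 (c + n) : ℝ) * ((5 / 2) * (10 : ℝ) ^ L / Real.log ((10 : ℝ) ^ (2 * L))) =
      Pool.Agent.V11251.DS.RR 10 (c + n) * (((10 : ℕ) : ℝ) ^ L * (((10 : ℕ) : ℝ) / Nat.totient 10) / (Real.log ((10 : ℕ) : ℝ) * (2 * L))) := by
    rw [e2]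
    have e4 : Nat.totient 10 = 4 := by decide
    rw [e4]
    have e5 : (((10 : ℕ) : ℝ)) = 10 := by norm_num
    rw [e5]
    unfold R Pool.Agent.V11251.DS.RR
    push_cast
    ring
  rw [e3]
  push_cast at hn ⊢
  convert hn

end Pool.Agent.Results.MP_540de1_nt.AlmostAllTranslates
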