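import Pool.Agent.H281L.Shift

/-!
# Palindromic primes and primes at a fixed distance from palindromes

`10 ^ (2 * L) ≤ n < 10 ^ (2 * L + 1)` and `(Nat.digits 10 n).reverse = Nat.digits 10 n`: the decimal
palindromes with exactly `2 * L + 1` digits. The bound is uniform in the integer `a`; the case `a = 0`
counts the palindromic primes, and the case `a = - N` counts the palindromes `n` with `|N - n|` prime.
-/

set_option autoImplicit false

namespace Pool.Agent.Results.MP_540de1_nt.ShiftedPalindromes

open Finset Filter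

theorem result (ε : ℝ) (hε : 0 < ε) : ∀ᶠ L : ℕ in atTop, ∀ a : ℤ,
    (((range (10 ^ (2 * L + 1))).filter (fun n : ℕ => 10 ^ (2 * L) ≤ n ∧
        (Nat.digits 10 n).reverse = Nat.digits 10 n ∧ ((n : ℤ) + a).natAbs.Prime)).card : ℝ) ≤
      (20 / 3 + ε) * (5 * 10 ^ L / (L * Real.log 10)) := by
  filter_upwards [Pool.Agent.H281L.shifted ε hε] with L hL
  intro a
  refine le_trans (le_of_eq ?_) (hL a)
  rw [Pool.Agent.H329R2.PalT13.palin, filter_filter]
  simp only [and_assoc]

end Pool.Agent.Results.MP_540de1_nt.ShiftedPalindromes
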