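import Mathlib
import Pool.Agent.H476R2.Pal.BV2

/-!
# At most `20/3 + ε` times the expected number of palindromic primes

There are `4 · 10^L` palindromes with `2L+1` digits that are prime to `10`, and a random integer of this size
that is prime to `10` is prime with probability `(10/4) / (2 L log 10)`; so one expects about
`5 · 10^L / (L log 10)` palindromic primes with `2L+1` digits.  (With an even number of digits there is only
`11`.)  We show that for every `ε > 0` and all large `L` there are at most `20/3 + ε` times as many.

The proof is in the starting library: the level of distribution `X^(3/5)` of the `X` palindromes with `2L+1` digits (it is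
the starting result `MP_540de1_nt.LevelThreeFifths`), with divisor weights, and the upper bound sieve
(`Pool/Agent/H329R2/PalQ12.lean`, `Pool/Agent/H476R2/Pal/BV2.lean`).
-/

set_option autoImplicit false

namespace Pool.Agent.Results.MP_540de1_nt.UpperBoundTwentyThirds

open Finset Filter

/-- The palindromic primes with `2L+1` decimal digits. -/
def palindromicPrimes (L : ℕ) : Finset ℕ :=
  (range (10 ^ (2 * L + 1))).filter
    (fun n => 10 ^ (2 * L) ≤ n ∧ (Nat.digits 10 n).reverse = Nat.digits 10 n ∧ n.Prime)

/-- The expected number of palindromic primes with `2L+1` digits: `4 · 10^L` palindromes prime to `10`, each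
of them prime with probability `(10/4) / log (10^(2L))`. -/
noncomputable def expected (L : ℕ) : ℝ :=
  (4 * 10 ^ L) * ((10 / 4) / Real.log ((10 : ℝ) ^ (2 * L)))

/-- For every `ε > 0` and all large `L` the number of palindromic primes with `2L+1` digits is at most
`20/3 + ε` times the expected number. -/
theorem result (ε : ℝ) (hε : 0 < ε) :
    ∀ᶠ L : ℕ in atTop, ((palindromicPrimes L).card : ℝ) ≤ (20 / 3 + ε) * expected L := by
  filter_upwards [Pool.Agent.H476R2.Pal.primes_upper2 ε hε, eventually_ge_atTop 1] with L hL h1
  have h2 : expected L = 5 * 10 ^ L / (L * Real.log 10) := by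
    have h3 : (L : ℝ) ≠ 0 := by
      have : (1 : ℝ) ≤ L := by exact_mod_cast h1
      positivity
    have h4 : Real.log 10 ≠ 0 := (Real.log_pos (by norm_num)).ne'
    unfold expected
    rw [Real.log_pow]
    push_cast
    field_simp
    ring
  rw [h2]
  exact hL

end Pool.Agent.Results.MP_540de1_nt.UpperBoundTwentyThirds
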